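import Mathlib

set_option autoImplicit false

namespace Pool.Agent.Helper259.AbsHt

open NumberField Height Module

/-- an algebraic closure of the rational numbers -/
abbrev Qbar : Type := AlgebraicClosure ℚ

/-- the field generated over `ℚ` by the entries of a vector -/
noncomputable abbrev fieldOf {ι : Type*} (x : ι → Qbar) : IntermediateField ℚ Qbar :=
  IntermediateField.adjoin ℚ (Set.range x)

instance instNF {ι : Type*} [Finite ι] (x : ι → Qbar) : NumberField (fieldOf x) where
  to_charZero := inferInstance
  to_finiteDimensional := by
    have : Finite (Set.range x) := Set.finite_range x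
    exact IntermediateField.finiteDimensional_adjoin fun y _ =>
      ((AlgebraicClosure.isAlgebraic ℚ).isAlgebraic y).isIntegral

/-- absolute logarithmic Weil height of a vector of algebraic numbers
(as a point of projective space) -/
noncomputable def absLogHeight {ι : Type*} [Finite ι] (x : ι → Qbar) : ℝ :=
  logHeight (fun i => (⟨x i, IntermediateField.subset_adjoin ℚ _ (Set.mem_range_self i)⟩ :
    fieldOf x)) / finrank ℚ (fieldOf x)

end Pool.Agent.Helper259.AbsHt
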