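import Mathlib

set_option autoImplicit false

namespace Pool.Agent.Helper259.HtPoly

open NumberField Height Module Polynomial

/-- coefficient vector of a polynomial -/
def cv {R : Type*} [Semiring R] (n : ℕ) (f : R[X]) : Fin (n + 1) → R := fun i => f.coeff i

lemma cv_ne_zero {R : Type*} [Semiring R] (n : ℕ) (f : R[X]) (hf : f ≠ 0) (hn : f.natDegree ≤ n) :
    cv n f ≠ 0 := by
  intro h
  have := congrFun h ⟨f.natDegree, by omega⟩
  simp only [cv, coeff_natDegree, Pi.zero_apply, leadingCoeff_eq_zero] at this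
  exact hf this

section complex

lemma complex_bound (n : ℕ) (f g : ℂ[X]) (hn : f.natDegree + g.natDegree ≤ n) :
    (⨆ i : Fin (n + 1), ‖f.coeff i‖) * (⨆ i : Fin (n + 1), ‖g.coeff i‖) ≤
      (2 ^ n * (n + 1)) * ⨆ i : Fin (n + 1), ‖(f * g).coeff i‖ := by
  have hc : ∀ (p : ℂ[X]), (⨆ i : Fin (n + 1), ‖p.coeff i‖) ≤ 2 ^ p.natDegree * p.mahlerMeasure := by
    intro p
    refine ciSup_le fun i => ?_
    refine (norm_coeff_le_choose_mul_mahlerMeasure i p).trans ?_
    have h1 : ((p.natDegree.choose i : ℕ) : ℝ) ≤ 2 ^ p.natDegree := by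
      exact_mod_cast Nat.choose_le_two_pow _ _
    exact mul_le_mul_of_nonneg_right h1 p.mahlerMeasure_nonneg
  have hsum : (f * g).mahlerMeasure ≤ (n + 1) * ⨆ i : Fin (n + 1), ‖(f * g).coeff i‖ := by
    refine (mahlerMeasure_le_sum_norm_coeff _).trans ?_
    have hdeg : (f * g).natDegree ≤ n := natDegree_mul_le.trans hn
    rw [sum_over_range' _ (by simp) (n + 1) (by omega)]
    have hle : ∀ i ∈ Finset.range (n + 1), ‖(f * g).coeff i‖ ≤ ⨆ i : Fin (n + 1), ‖(f * g).coeff i‖ := by
      intro i hi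
      exact Finite.le_ciSup (fun i : Fin (n + 1) => ‖(f * g).coeff i‖) ⟨i, Finset.mem_range.mp hi⟩
    refine (Finset.sum_le_card_nsmul _ _ _ hle).trans ?_
    simp
  have h0 : ∀ p : ℂ[X], 0 ≤ ⨆ i : Fin (n + 1), ‖p.coeff i‖ := fun p =>
    Real.iSup_nonneg fun i => norm_nonneg _
  have hpow : (2 : ℝ) ^ (f.natDegree + g.natDegree) ≤ 2 ^ n :=
    pow_le_pow_right₀ (by norm_num) hn
  calc (⨆ i : Fin (n + 1), ‖f.coeff i‖) * (⨆ i : Fin (n + 1), ‖g.coeff i‖)
      ≤ (2 ^ f.natDegree * f.mahlerMeasure) * (2 ^ g.natDegree * g.mahlerMeasure) :=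
        mul_le_mul (hc f) (hc g) (h0 g) (by have := f.mahlerMeasure_nonneg; positivity)
    _ = 2 ^ (f.natDegree + g.natDegree) * (f * g).mahlerMeasure := by
        rw [mahlerMeasure_mul, pow_add]; ring
    _ ≤ 2 ^ n * ((n + 1) * ⨆ i : Fin (n + 1), ‖(f * g).coeff i‖) :=
        mul_le_mul hpow hsum (mahlerMeasure_nonneg _) (by positivity)
    _ = _ := by ring

end complex

section nonarch

variable {K : Type*} [Field K]

lemma iSup_eq_gaussNorm (v : AbsoluteValue K ℝ) (n : ℕ) (f : K[X]) (hn : f.natDegree ≤ n) :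
    (⨆ i : Fin (n + 1), v (f.coeff i)) = f.gaussNorm v 1 := by
  apply le_antisymm
  · refine ciSup_le fun i => ?_
    have := f.le_gaussNorm v (c := 1) (by norm_num) i
    simpa using this
  · obtain ⟨i, hi⟩ := f.exists_eq_gaussNorm v 1
    rw [hi]
    by_cases h : i < n + 1
    · simp only [one_pow, mul_one]
      exact Finite.le_ciSup (fun i : Fin (n + 1) => v (f.coeff i)) ⟨i, h⟩
    · have : f.coeff i = 0 := coeff_eq_zero_of_natDegree_lt (by omega)
      rw [this, map_zero, zero_mul]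
      exact Real.iSup_nonneg fun i => v.nonneg _

lemma nonarch_eq (v : AbsoluteValue K ℝ) (hv : IsNonarchimedean v) (n : ℕ) (f g : K[X])
    (hn : f.natDegree + g.natDegree ≤ n) :
    (⨆ i : Fin (n + 1), v (f.coeff i)) * (⨆ i : Fin (n + 1), v (g.coeff i)) =
      ⨆ i : Fin (n + 1), v ((f * g).coeff i) := by
  rw [iSup_eq_gaussNorm v n f (by omega), iSup_eq_gaussNorm v n g (by omega),
    iSup_eq_gaussNorm v n (f * g) (natDegree_mul_le.trans hn), gaussNorm_mul hv (by norm_num)]

end nonarch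

variable {K : Type*} [Field K] [NumberField K]

lemma arch_bound (w : InfinitePlace K) (n : ℕ) (f g : K[X]) (hn : f.natDegree + g.natDegree ≤ n) :
    (⨆ i : Fin (n + 1), w (f.coeff i)) * (⨆ i : Fin (n + 1), w (g.coeff i)) ≤
      (2 ^ n * (n + 1)) * ⨆ i : Fin (n + 1), w ((f * g).coeff i) := by
  have hw : ∀ x : K, w x = ‖w.embedding x‖ := fun x => (InfinitePlace.norm_embedding_eq w x).symm
  have := complex_bound n (f.map w.embedding) (g.map w.embedding) (by
    rw [natDegree_map, natDegree_map]; exact hn)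
  simp only [hw]
  simpa only [coeff_map, ← Polynomial.map_mul] using this

lemma finSupp {ι : Type*} [Finite ι] {x : ι → K} (hx : x ≠ 0) :
    (fun v : Height.AdmissibleAbsValues.nonarchAbsVal (K := K) ↦
      ⨆ i, v.val (x i)).HasFiniteMulSupport := by
  have : Nonempty {j // x j ≠ 0} := nonempty_subtype.mpr <| Function.ne_iff.mp hx
  suffices (fun v : Height.AdmissibleAbsValues.nonarchAbsVal (K := K) ↦
      ⨆ i : {j // x j ≠ 0}, v.val (x i)).HasFiniteMulSupport by
    convert! this with v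
    obtain ⟨i, hi⟩ : ∃ j, x j ≠ 0 := Function.ne_iff.mp hx
    have : Nonempty ι := .intro i
    refine le_antisymm (ciSup_le fun j ↦ ?_) (ciSup_le fun ⟨j, hj⟩ ↦ Finite.le_ciSup_of_le j le_rfl)
    rcases eq_or_ne (x j) 0 with h | h
    · rw [h, v.val.map_zero]
      exact Real.iSup_nonneg' ⟨⟨i, hi⟩, v.val.nonneg ..⟩
    · exact Finite.le_ciSup_of_le ⟨j, h⟩ le_rfl
  fun_prop (disch := grind)

theorem mulHeight_mul_poly (n : ℕ) (f g : K[X]) (hf : f ≠ 0) (hg : g ≠ 0)
    (hn : f.natDegree + g.natDegree ≤ n) :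
    mulHeight (cv n f) * mulHeight (cv n g) ≤
      (2 ^ n * (n + 1)) ^ finrank ℚ K * mulHeight (cv n (f * g)) := by
  have hfg : f * g ≠ 0 := mul_ne_zero hf hg
  have h1 := cv_ne_zero n f hf (by omega)
  have h2 := cv_ne_zero n g hg (by omega)
  have h3 := cv_ne_zero n (f * g) hfg (natDegree_mul_le.trans hn)
  have hC : (0 : ℝ) ≤ 2 ^ n * (n + 1) := by positivity
  rw [Height.mulHeight_eq h1, Height.mulHeight_eq h2, Height.mulHeight_eq h3, mul_mul_mul_comm,
    ← Multiset.prod_map_mul, ← totalWeight_eq_finrank]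
  have harch : (Multiset.map (fun v : AbsoluteValue K ℝ => (⨆ i, v (cv n f i)) * ⨆ i, v (cv n g i))
        Height.AdmissibleAbsValues.archAbsVal).prod ≤
      (2 ^ n * (n + 1)) ^ totalWeight K *
        (Multiset.map (fun v : AbsoluteValue K ℝ => ⨆ i, v (cv n (f * g) i))
          Height.AdmissibleAbsValues.archAbsVal).prod := by
    rw [totalWeight, ← Multiset.prod_replicate, ← Multiset.map_const', ← Multiset.prod_map_mul]
    refine Multiset.prod_map_le_prod_map₀ _ _ ?_ ?_
    · intro v _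
      exact mul_nonneg (Real.iSup_nonneg fun i => v.nonneg _) (Real.iSup_nonneg fun i => v.nonneg _)
    · intro v hv
      have hv' : IsInfinitePlace v := mem_multisetInfinitePlace.mp hv
      exact arch_bound ⟨v, hv'⟩ n f g hn
  have hnon : (∏ᶠ v : Height.AdmissibleAbsValues.nonarchAbsVal (K := K), ⨆ i, v.val (cv n f i)) *
      (∏ᶠ v : Height.AdmissibleAbsValues.nonarchAbsVal (K := K), ⨆ i, v.val (cv n g i)) =
      ∏ᶠ v : Height.AdmissibleAbsValues.nonarchAbsVal (K := K), ⨆ i, v.val (cv n (f * g) i) := by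
    rw [← finprod_mul_distrib]
    · refine finprod_congr fun v => ?_
      exact nonarch_eq v.val (Height.AdmissibleAbsValues.isNonarchimedean _ v.prop) n f g hn
    · exact finSupp h1
    · exact finSupp h2
  rw [hnon, ← mul_assoc]
  refine mul_le_mul_of_nonneg_right harch ?_
  exact finprod_nonneg fun v => Real.iSup_nonneg fun i => v.val.nonneg _

end Pool.Agent.Helper259.HtPoly
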